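import Mathlib
import Pool.Agent.H9.MD.Final

/-!
# Metric dimension versus edge metric dimension

All graphs are finite, simple and connected. For a vertex `v` and an edge `e = ab` the distance is
`d(v, e) = min (d(v, a), d(v, b))` (`EdgeDist`). A set `S` of vertices is *resolving* if any two vertices have different
distances to some vertex in `S`, and *edge resolving* if any two edges have. `dim G` and `edim G` are the least sizes
of a resolving and of an edge resolving set, and `c(G) = |E| - |V| + 1` is the cyclomatic number.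

`result`, for every finite connected graph `G`:
* every nonempty set `S` of vertices is contained in a set `W` of at most `|S| + c(G)` vertices, which is both
  resolving and edge resolving if `S` is resolving or edge resolving;
* if `G` has not exactly two vertices, then `|dim G - edim G| ≤ c(G)` (the conjecture of Sedlar and Škrekovski), and
  moreover some set of at most `min (dim G, edim G) + c(G)` vertices is both resolving and edge resolving.

For `G = K₂` one has `dim G = 1`, `edim G = 0` and `c(G) = 0`.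
-/

set_option autoImplicit false

namespace Pool.Agent.Results.MP_a20e8c_co.MetricVersusEdgeMetric

open Finset


variable {V : Type} (G : SimpleGraph V)

/-- `S` is resolving: any two different vertices `x`, `y` have different distances to some `s` in `S`. -/
def Resolving (S : Finset V) : Prop :=
  ∀ x y : V, x ≠ y → ∃ s ∈ S, G.dist s x ≠ G.dist s y

/-- `m` is the distance between the vertex `v` and the edge `e`: the least distance between `v` and an end of `e`. -/
def EdgeDist (v : V) (e : Sym2 V) (m : ℕ) : Prop :=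
  IsLeast {k : ℕ | ∃ a ∈ e, G.dist v a = k} m

/-- `S` is edge resolving: any two different edges `e`, `f` have different distances to some `s` in `S`. -/
def EdgeResolving (S : Finset V) : Prop :=
  ∀ e ∈ G.edgeSet, ∀ f ∈ G.edgeSet, e ≠ f →
    ∃ s ∈ S, ∃ m n : ℕ, EdgeDist G s e m ∧ EdgeDist G s f n ∧ m ≠ n

/-- `d` is the metric dimension of `G`. -/
def IsDim (d : ℕ) : Prop := IsLeast {k : ℕ | ∃ S : Finset V, S.card = k ∧ Resolving G S} d

/-- `d` is the edge metric dimension of `G`. -/
def IsEdim (d : ℕ) : Prop := IsLeast {k : ℕ | ∃ S : Finset V, S.card = k ∧ EdgeResolving G S} d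

variable {G}

private theorem edgeDist_iff (v : V) (e : Sym2 V) (m : ℕ) :
    EdgeDist G v e m ↔ m = H9.MD.ed G e v := by
  induction e using Sym2.ind with
  | _ a b =>
    have hset : {k : ℕ | ∃ x ∈ s(a, b), G.dist v x = k} = {G.dist v a, G.dist v b} := by
      ext k
      simp only [Set.mem_ofPred_eq, Sym2.mem_iff, Set.mem_insert_iff, Set.mem_singleton_iff]
      constructor
      · rintro ⟨x, rfl | rfl, rfl⟩
        · left; rfl
        · right; rfl
      · rintro (rfl | rfl)
        · exact ⟨a, Or.inl rfl, rfl⟩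
        · exact ⟨b, Or.inr rfl, rfl⟩
    have hmin : IsLeast ({G.dist v a, G.dist v b} : Set ℕ) (min (G.dist v a) (G.dist v b)) := by
      refine ⟨?_, ?_⟩
      · rcases min_choice (G.dist v a) (G.dist v b) with h | h <;> rw [h] <;> simp
      · rintro k (rfl | rfl)
        · exact min_le_left _ _
        · exact min_le_right _ _
    unfold EdgeDist
    rw [hset, H9.MD.ed_mk, SimpleGraph.dist_comm (u := a), SimpleGraph.dist_comm (u := b)]
    constructor
    · intro h
      exact h.unique hmin
    · rintro rfl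
      exact hmin

private theorem resolving_iff (S : Finset V) :
    Resolving G S ↔ ∀ x y : V, (∀ w ∈ S, G.dist x w = G.dist y w) → x = y := by
  constructor
  · intro h x y hxy
    by_contra hne
    obtain ⟨s, hs, h'⟩ := h x y hne
    rw [SimpleGraph.dist_comm (u := s), SimpleGraph.dist_comm (u := s)] at h'
    exact h' (hxy s hs)
  · intro h x y hxy
    by_contra hcon
    push Not at hcon
    refine hxy (h x y fun w hw => ?_)
    rw [SimpleGraph.dist_comm, hcon w hw, SimpleGraph.dist_comm]

private theorem edgeResolving_iff (S : Finset V) :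
    EdgeResolving G S ↔ ∀ f ∈ G.edgeSet, ∀ g ∈ G.edgeSet,
      (∀ w ∈ S, H9.MD.ed G f w = H9.MD.ed G g w) → f = g := by
  constructor
  · intro h f hf g hg hfg
    by_contra hne
    obtain ⟨s, hs, m, n, hm, hn, hmn⟩ := h f hf g hg hne
    rw [edgeDist_iff] at hm hn
    rw [hm, hn] at hmn
    exact hmn (hfg s hs)
  · intro h e he f hf hne
    by_contra hcon
    push Not at hcon
    refine hne (h e he f hf fun w hw => ?_)
    exact hcon w hw _ _ ((edgeDist_iff w e _).2 rfl) ((edgeDist_iff w f _).2 rfl)

private theorem Resolving.mono {S W : Finset V} (h : Resolving G S) (hSW : S ⊆ W) :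
    Resolving G W := by
  intro x y hxy
  obtain ⟨s, hs, h'⟩ := h x y hxy
  exact ⟨s, hSW hs, h'⟩

private theorem EdgeResolving.mono {S W : Finset V} (h : EdgeResolving G S) (hSW : S ⊆ W) :
    EdgeResolving G W := by
  intro e he f hf hne
  obtain ⟨s, hs, h'⟩ := h e he f hf hne
  exact ⟨s, hSW hs, h'⟩

private theorem main [Fintype V] (hG : G.Connected) (S : Finset V) (hS : S.Nonempty) :
    ∃ W : Finset V, S ⊆ W ∧ W.card + Fintype.card V ≤ S.card + G.edgeSet.ncard + 1 ∧
      (Resolving G S ∨ EdgeResolving G S → Resolving G W ∧ EdgeResolving G W) := by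
  classical
  obtain ⟨W, hSW, hc, h1, h2⟩ := H9.MD.main hG S hS
  have hE : G.edgeSet.ncard = G.edgeFinset.card := by
    rw [← SimpleGraph.coe_edgeFinset, Set.ncard_coe_finset]
  refine ⟨W, hSW, by rw [hE]; exact hc, ?_⟩
  rintro (h | h)
  · exact ⟨h.mono hSW, (edgeResolving_iff W).2 (h1 ((resolving_iff S).1 h))⟩
  · exact ⟨(resolving_iff W).2 (h2 ((edgeResolving_iff S).1 h)), h.mono hSW⟩

private theorem resolving_univ [Fintype V] (hG : G.Connected) : Resolving G (univ : Finset V) := by
  intro x y hxy
  refine ⟨x, Finset.mem_univ _, ?_⟩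
  rw [SimpleGraph.dist_self]
  intro h
  exact hxy (H9.MD.dist_zero hG h.symm)

private theorem edgeResolving_univ [Fintype V] (hG : G.Connected) :
    EdgeResolving G (univ : Finset V) := by
  classical
  refine (edgeResolving_iff _).2 fun f hf g hg hfg => ?_
  have hsub : ∀ x ∈ f, x ∈ g := by
    intro x hx
    apply H9.MD.mem_of_ed_eq_zero hG
    rw [← hfg x (Finset.mem_univ _)]
    exact H9.MD.ed_self_eq_zero hx
  induction f using Sym2.ind with
  | _ a b =>
    have hab : a ≠ b := ((SimpleGraph.mem_edgeSet G).1 hf).ne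
    exact ((Sym2.mem_and_mem_iff hab).1 ⟨hsub a (by simp), hsub b (by simp)⟩).symm

variable (G)

theorem result [Fintype V] (hG : G.Connected) :
    (∀ S : Finset V, S.Nonempty →
      ∃ W : Finset V, S ⊆ W ∧ (W.card : ℤ) ≤ S.card + (G.edgeSet.ncard - Fintype.card V + 1) ∧
        (Resolving G S ∨ EdgeResolving G S → Resolving G W ∧ EdgeResolving G W)) ∧
    (Fintype.card V ≠ 2 →
      ∃ d e : ℕ, IsDim G d ∧ IsEdim G e ∧
        |(d : ℤ) - e| ≤ (G.edgeSet.ncard : ℤ) - Fintype.card V + 1 ∧
        ∃ W : Finset V, (W.card : ℤ) ≤ min (d : ℤ) e + (G.edgeSet.ncard - Fintype.card V + 1) ∧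
          Resolving G W ∧ EdgeResolving G W) := by
  classical
  refine ⟨?_, ?_⟩
  · intro S hS
    obtain ⟨W, h1, h2, h3⟩ := main hG S hS
    exact ⟨W, h1, by omega, h3⟩
  intro hcard
  have neV : {k : ℕ | ∃ S : Finset V, S.card = k ∧ Resolving G S}.Nonempty :=
    ⟨_, univ, rfl, resolving_univ hG⟩
  have neE : {k : ℕ | ∃ S : Finset V, S.card = k ∧ EdgeResolving G S}.Nonempty :=
    ⟨_, univ, rfl, edgeResolving_univ hG⟩
  have hd : IsDim G (sInf {k : ℕ | ∃ S : Finset V, S.card = k ∧ Resolving G S}) :=
    ⟨Nat.sInf_mem neV, fun k hk => Nat.sInf_le hk⟩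
  have he : IsEdim G (sInf {k : ℕ | ∃ S : Finset V, S.card = k ∧ EdgeResolving G S}) :=
    ⟨Nat.sInf_mem neE, fun k hk => Nat.sInf_le hk⟩
  obtain ⟨v₀⟩ := hG.nonempty
  have hpos : 0 < Fintype.card V := Fintype.card_pos_iff.2 ⟨v₀⟩
  generalize sInf {k : ℕ | ∃ S : Finset V, S.card = k ∧ Resolving G S} = d at hd
  generalize sInf {k : ℕ | ∃ S : Finset V, S.card = k ∧ EdgeResolving G S} = e at he
  refine ⟨d, e, hd, he, ?_⟩
  by_cases h1 : Fintype.card V = 1
  · have hsub : Subsingleton V := Fintype.card_le_one_iff_subsingleton.1 h1.le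
    have r1 : Resolving G ∅ := fun x y hxy => absurd (Subsingleton.elim x y) hxy
    have r2 : EdgeResolving G ∅ := by
      intro f hf
      induction f using Sym2.ind with
      | _ a b => exact absurd (Subsingleton.elim a b) ((SimpleGraph.mem_edgeSet G).1 hf).ne
    have hd0 : d = 0 := Nat.le_zero.1 (hd.2 ⟨∅, rfl, r1⟩)
    have he0 : e = 0 := Nat.le_zero.1 (he.2 ⟨∅, rfl, r2⟩)
    subst hd0 he0
    refine ⟨?_, ∅, ?_, r1, r2⟩
    · rw [h1]; simp
    · rw [h1]; simp
  · have h3 : 3 ≤ Fintype.card V := by omega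
    obtain ⟨S, hS1, hS2⟩ := hd.1
    obtain ⟨T, hT1, hT2⟩ := he.1
    have hSne : S.Nonempty := by
      obtain ⟨u, v, huv⟩ := Fintype.exists_pair_of_one_lt_card (by omega : 1 < Fintype.card V)
      obtain ⟨w, hw, -⟩ := hS2 u v huv
      exact ⟨w, hw⟩
    have hTne : T.Nonempty := by
      have h4 := hG.card_vert_le_card_edgeSet_add_one
      rw [Nat.card_eq_fintype_card, Nat.card_eq_fintype_card,
        ← SimpleGraph.edgeFinset_card] at h4
      obtain ⟨f, hf, g, hg, hfg⟩ := Finset.one_lt_card.1 (by omega : 1 < G.edgeFinset.card)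
      rw [SimpleGraph.mem_edgeFinset] at hf hg
      obtain ⟨w, hw, -⟩ := hT2 f hf g hg hfg
      exact ⟨w, hw⟩
    obtain ⟨W, -, hW2, hW3⟩ := main hG S hSne
    obtain ⟨U, -, hU2, hU3⟩ := main hG T hTne
    have hW := hW3 (Or.inl hS2)
    have hU := hU3 (Or.inr hT2)
    have b1 : e ≤ W.card := he.2 ⟨W, rfl, hW.2⟩
    have b2 : d ≤ U.card := hd.2 ⟨U, rfl, hU.1⟩
    rw [hS1] at hW2
    rw [hT1] at hU2
    refine ⟨?_, ?_⟩
    · rw [abs_le]
      constructor <;> omega
    · rcases le_total d e with h | h
      · refine ⟨W, ?_, hW⟩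
        rw [min_eq_left (by exact_mod_cast h)]
        omega
      · refine ⟨U, ?_, hU⟩
        rw [min_eq_right (by exact_mod_cast h)]
        omega

end Pool.Agent.Results.MP_a20e8c_co.MetricVersusEdgeMetric
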